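import Mathlib
import Pool.Agent.Lib.helper11.Auto

namespace Pool.Agent.Results.MP_f90694_nt.Regular

section
variable (h : ℤ → ℤ) (h0 : ∀ n ≤ 0, h n = 1) (h1 : h 1 = 1)
  (hr : ∀ n, 1 < n → h n = h (n - h (n - 1)) + h (n - 2))
include h0 h1 hr

lemma base (n : ℕ) : h (2 * n + 1) = n + 1 ∧ 2 * (n : ℤ) ≤ h (2 * n) ∧ (0 < n → 2 ≤ h (n + 1)) ∧
    h (2 * n + 2) = h (2 * n) + h (n + 1) := by
  induction n using Nat.strong_induction_on with
  | _ n ih =>
    have key : h (2 * n + 1) = n + 1 ∧ 2 * (n : ℤ) ≤ h (2 * n) := by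
      rcases n with _ | n
      · simp [h1, h0]
      · obtain ⟨a1, a2, a3, a4⟩ := ih n (by omega)
        have b : 2 * ((n + 1 : ℕ) : ℤ) ≤ h (2 * (n + 1 : ℕ)) := by
          push_cast
          rw [mul_add, mul_one, a4]
          rcases Nat.eq_zero_or_pos n with rfl | hn
          · simp [h0, h1]
          · have := a3 hn; omega
        refine ⟨?_, b⟩
        rw [hr _ (by omega), add_sub_cancel_right,
          show 2 * ((n + 1 : ℕ) : ℤ) + 1 - 2 = 2 * n + 1 by push_cast; ring, a1]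
        rcases eq_or_lt_of_le b with e | e
        · rw [← e, add_sub_cancel_left, h1]; push_cast; ring
        · rw [h0 _ (by omega)]; push_cast; ring
    have l4 : h (2 * n + 2) = h (2 * n) + h (n + 1) := by
      rw [hr _ (by omega), show 2 * (n : ℤ) + 2 - 1 = 2 * n + 1 by ring, key.1,
        add_sub_cancel_right, show 2 * (n : ℤ) + 2 - (n + 1) = n + 1 by ring, add_comm]
    refine ⟨key.1, key.2, fun hn => ?_, l4⟩
    rcases Nat.even_or_odd' n with ⟨a, rfl | rfl⟩
    · have := (ih a (by omega)).1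
      push_cast
      omega
    · rcases Nat.eq_zero_or_pos a with rfl | ha
      · have := (ih 0 (by omega)).2.2.2
        simp [h0, h1] at this ⊢
        omega
      · have := (ih (a + 1) (by omega)).2.1
        push_cast at this ⊢
        rw [show 2 * (a : ℤ) + 1 + 1 = 2 * (a + 1) by ring]
        omega

lemma ro (n : ℕ) : h ((2 * n + 1 : ℕ) : ℤ) = n + 1 := by
  simpa using (base h h0 h1 hr n).1

lemma re (n : ℕ) : h ((2 * n + 2 : ℕ) : ℤ) = h ((2 * n : ℕ) : ℤ) + h ((n + 1 : ℕ) : ℤ) := by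
  simpa using (base h h0 h1 hr n).2.2.2

end

def W (x m t : ℕ) : ℕ :=
  if t % 2 = 1 then (t / 2 + 1) % 2 else
    [x, x + 1, m, m, m / 2, m / 2 + 1, m + 1, m + 1].getD (t / 2) 0 % 2

def pos (i x m c : ℕ) : ℕ := ((List.range 16).filter (fun t => W x m t = i)).getD c 0

lemma fin_chk : ∀ i < 2, ∀ x < 2, ∀ m < 4, Nat.count (fun t => W x m t = i) 16 = 8 ∧
    ∀ c < 8, pos i x m c < 16 ∧ W x m (pos i x m c) = i ∧
      Nat.count (fun t => W x m t = i) (pos i x m c) = c := by
  decide +kernel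

section
variable (g : ℕ → ℤ) (ro : ∀ n : ℕ, g (2 * n + 1) = n + 1)
  (re : ∀ n : ℕ, g (2 * n + 2) = g (2 * n) + g (n + 1))
include ro re

lemma r8 (j : ℕ) : (g (8 * j) + g (4 * j) + (j / 2 : ℕ)) % 2 = 0 := by
  induction j with
  | zero => simp; omega
  | succ j ih =>
    have a1 := re (4 * j)
    have a2 := re (4 * j + 1)
    have a3 := re (4 * j + 2)
    have a4 := re (4 * j + 3)
    have b1 := ro (2 * j)
    have b2 := ro (2 * j + 1)
    have b3 := re (2 * j)
    have b4 := ro j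
    have e : (j + 1) / 2 = j / 2 + j % 2 := by omega
    rw [e]
    generalize j / 2 = y at *
    ring_nf at a1 a2 a3 a4 b1 b2 b3 b4 ih ⊢
    omega

lemma blk (j t : ℕ) (ht : t < 16) :
    g (16 * j + t) % 2 = W (g (16 * j) % 2).toNat (j % 4) t := by
  rcases Nat.even_or_odd' t with ⟨a, rfl | rfl⟩
  · have a1 := re (8 * j)
    have a2 := re (8 * j + 1)
    have a3 := re (8 * j + 2)
    have a4 := re (8 * j + 3)
    have a5 := re (8 * j + 4)
    have a6 := re (8 * j + 5)
    have a7 := re (8 * j + 6)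
    have b1 := re (4 * j)
    have b2 := re (4 * j + 1)
    have b3 := re (4 * j + 2)
    have b4 := re (2 * j)
    have c1 := ro (4 * j)
    have c2 := ro (4 * j + 1)
    have c3 := ro (4 * j + 2)
    have c4 := ro (4 * j + 3)
    have c5 := ro (2 * j)
    have c6 := ro (2 * j + 1)
    have c7 := ro j
    have d1 := r8 g ro re j
    have d2 := r8 g ro re (2 * j)
    rw [Nat.mul_div_cancel_left _ two_pos] at d2
    have ha : a < 8 := by omega
    obtain ⟨q, m, hm, e⟩ : ∃ q m, m < 4 ∧ j = 4 * q + m := ⟨j / 4, j % 4, by omega, by omega⟩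
    have e1 : j % 4 = m := by omega
    have e2 : j / 2 = 2 * q + m / 2 := by omega
    have e3 : (j : ℤ) = 4 * q + m := by omega
    rw [e1]
    rw [e2] at d1
    push_cast at c1 c2 c3 c4 c5 c6 c7 d1
    rw [e3] at c1 c2 c3 c4 c5 c6 c7 d2
    clear e e1 e2 e3
    interval_cases a <;> interval_cases m <;> simp only [W] <;> norm_num <;>
      ring_nf at a1 a2 a3 a4 a5 a6 a7 b1 b2 b3 b4 c1 c2 c3 c4 c5 c6 c7 d1 d2 ⊢ <;> omega
  · rw [show 16 * j + (2 * a + 1) = 2 * (8 * j + a) + 1 by ring, ro, W, if_pos (by omega)]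
    omega

lemma xs (j b : ℕ) (hb : b < 2) : (g (16 * (2 * j + b)) % 2).toNat =
    if b = 0 then (g (16 * j) % 2).toNat else (j / 2 + 1) % 2 := by
  have d := r8 g ro re (2 * (2 * j + b))
  rw [Nat.mul_div_cancel_left _ two_pos] at d
  have d2 := blk g ro re j 8 (by norm_num)
  simp only [W] at d2
  norm_num at d2
  interval_cases b <;> simp only [if_true, one_ne_zero, if_false] <;> ring_nf at d d2 ⊢ <;> omega

lemma nth_eq (i : ℕ) (hi : i < 2) (n : ℕ) : Nat.nth (fun m : ℕ => g m % 2 = i) n =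
    16 * (n / 8) + pos i (g (16 * (n / 8)) % 2).toNat (n / 8 % 4) (n % 8) := by
  have hb : ∀ j t, t ≤ 16 → Nat.count (fun m : ℕ => g (16 * j + m) % 2 = i) t =
      Nat.count (fun t => W (g (16 * j) % 2).toNat (j % 4) t = i) t := by
    intro j t ht
    rw [Nat.count_eq_card_filter_range, Nat.count_eq_card_filter_range]
    congr 1
    refine Finset.filter_congr fun s hs => ?_
    rw [blk g ro re j s (by have := Finset.mem_range.1 hs; omega), Nat.cast_inj]
  have hc : ∀ j, Nat.count (fun m : ℕ => g m % 2 = i) (16 * j) = 8 * j := by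
    intro j
    induction j with
    | zero => simp
    | succ j ih =>
      rw [mul_add, mul_one, Nat.count_add, ih, hb j 16 le_rfl,
        (fin_chk i hi _ (by omega) _ (by omega)).1]
      ring
  obtain ⟨p1, p2, p3⟩ := (fin_chk i hi (g (16 * (n / 8)) % 2).toNat (by omega)
    (n / 8 % 4) (by omega)).2 (n % 8) (by omega)
  have := Nat.nth_count (p := fun m : ℕ => g m % 2 = i) (n := 16 * (n / 8) + pos i
    (g (16 * (n / 8)) % 2).toNat (n / 8 % 4) (n % 8))
    (by rw [blk g ro re _ _ p1, p2])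
  rwa [Nat.count_add, hc, hb _ _ p1.le, p3, Nat.div_add_mod] at this

end

theorem result (h : ℤ → ℤ) (h0 : ∀ n ≤ 0, h n = 1) (h1 : h 1 = 1)
    (hr : ∀ n, 1 < n → h n = h (n - h (n - 1)) + h (n - 2)) (i : ℕ) (hi : i < 2) :
    {m : ℕ | h m % 2 = i}.Infinite ∧
    (Submodule.span ℤ {f : ℕ → ℤ | ∃ j c : ℕ, c < 2 ^ j ∧
      f = fun n => (Nat.nth (fun m : ℕ => h m % 2 = i) (2 ^ j * n + c) : ℤ)}).FG := by
  constructor
  · refine Set.infinite_of_injective_forall_mem (f := fun n : ℕ => 2 * (2 * n + 1 - i) + 1)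
      (fun a b hab => by simp only at hab; omega) fun n => ?_
    simp only [Set.mem_ofPred_eq]
    rw [ro h h0 h1 hr]
    omega
  refine Pool.Agent.Lib.helper11.Auto.fg_of_lin 2
    (fun n => (Nat.nth (fun m : ℕ => h m % 2 = i) n : ℤ))
    (fun n => (pos i (h ((16 * (n / 8) : ℕ) : ℤ) % 2).toNat (n / 8 % 4) (n % 8) : ℤ) -
      2 * (n % 8 : ℕ)) 2 (fun n => by rw [nth_eq (fun n => h n) (ro h h0 h1 hr) (re h h0 h1 hr) i hi]; omega) ?_
  refine Pool.Agent.Lib.helper11.Auto.kernel_finite 2 (by norm_num)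
    (fun n => ((h ((16 * (n / 8) : ℕ) : ℤ) % 2).toNat, n % 32))
    (((Set.finite_Iio 2).prod (Set.finite_Iio 32)).subset ?_)
    (fun q b => (if q.2 / 4 % 2 = 0 then q.1 else (q.2 / 16 + 1) % 2, (2 * q.2 + b) % 32))
    (fun q => (pos i q.1 (q.2 / 8 % 4) (q.2 % 8) : ℤ) - 2 * (q.2 % 8 : ℕ))
    (fun n => (pos i (h ((16 * (n / 8) : ℕ) : ℤ) % 2).toNat (n / 8 % 4) (n % 8) : ℤ) -
      2 * (n % 8 : ℕ)) ?_ ?_
  · rintro _ ⟨n, rfl⟩
    simp only [Set.mem_prod, Set.mem_Iio]
    omega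
  · intro n b hb
    refine Prod.ext ?_ (by simp only; omega)
    simp only
    rw [show (2 * n + b) / 8 = 2 * (n / 8) + n % 32 / 4 % 2 by omega,
      xs (fun n => h n) (ro h h0 h1 hr) (re h h0 h1 hr) _ _ (by omega)]
    split_ifs <;> omega
  · intro n
    simp only
    rw [show n % 32 / 8 % 4 = n / 8 % 4 by omega, show n % 32 % 8 = n % 8 by omega]

end Pool.Agent.Results.MP_f90694_nt.Regular
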